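import Pool.Agent.K4H69.SFe

/-!
# Large-index point-degrees of intersecting families of subspaces

For every finite field with `q` elements, all `3 ≤ i ≤ k`, `n ≥ 3 k` and every intersecting family of
`k`-dimensional subspaces of an `n`-dimensional space, the `[i + 1]`-th largest point-degree is at most
`gb (n - 2) (k - 2) + q ^ (k - 1) gb (n - i - 1) (k - i)`.

Proof. Pass to a maximal intersecting family. A point of larger degree lies on a plane (2-dimensional
space) that meets all members. Such planes meet pairwise, so they lie in a 3-dimensional space or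
all contain a point `X`. In the second case they lie in `U = ⋂ (G + X)`, over the members `G` not
containing `X`. If `dim U ≤ i` there are few such points, if `dim U > i + 1` there are few `G`, and if
`dim U = i + 1` averaging over the points of `U` shows that one of them has small degree.
-/

set_option autoImplicit false

open Module Finset

namespace Pool.Agent.Results.MP_6601f2_co.LargeIndexDegrees

open Pool.Agent.K4H69.SF

/-- The list of the degrees of all points (1-dimensional subspaces), in non-increasing order. Here
`deg F P` is the number of members of `F` that contain `P`. -/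
noncomputable def degreeList {K V : Type} [Field K] [Finite K] [AddCommGroup V] [Module K V]
    [Module.Finite K V] (F : Finset (Submodule K V)) : List ℕ :=
  open Classical in
  ((univ.filter (fun P : Submodule K V => finrank K P = 1)).val.map (deg F)).sort (· ≥ ·)

/-- The `j`-th largest point-degree `d_j`, for `j ≥ 1` (with the value `0` if `j` exceeds the number
of points). -/
noncomputable def d {K V : Type} [Field K] [Finite K] [AddCommGroup V] [Module K V]
    [Module.Finite K V] (F : Finset (Submodule K V)) (j : ℕ) : ℕ :=
  (degreeList F).getD (j - 1) 0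

/-- `F` is an intersecting family of `k`-dimensional subspaces. -/
def IsIntersecting {K V : Type} [Field K] [AddCommGroup V] [Module K V]
    (k : ℕ) (F : Finset (Submodule K V)) : Prop :=
  (∀ W ∈ F, finrank K W = k) ∧ ∀ W ∈ F, ∀ W' ∈ F, 1 ≤ finrank K (W ⊓ W' : Submodule K V)

lemma card_high_ge {K V : Type} [Field K] [Finite K] [AddCommGroup V] [Module K V]
    [Module.Finite K V] (F : Finset (Submodule K V)) (B : ℚ) (hB : 0 ≤ B) (j : ℕ) (hj : 1 ≤ j)
    (h : B < d F j) : j ≤ (high F B).card := by
  classical
  have hlen : j - 1 < (degreeList F).length := by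
    by_contra hcon
    push Not at hcon
    unfold d at h
    rw [List.getD_eq_default _ _ hcon] at h
    push_cast at h
    linarith
  have hget : B < ((degreeList F)[j - 1] : ℕ) := by
    unfold d at h
    rw [List.getD_eq_getElem _ _ hlen] at h
    exact h
  have hsorted : (degreeList F).Pairwise (· ≥ ·) := by
    unfold degreeList
    exact Multiset.pairwise_sort _ _
  have h1 : ∀ x ∈ (degreeList F).take j, B < (x : ℚ) := by
    intro x hx
    obtain ⟨t, ht, rfl⟩ := List.mem_iff_getElem.1 hx
    rw [List.length_take] at ht
    rw [List.getElem_take]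
    have ht' : t < j := lt_of_lt_of_le ht (min_le_left _ _)
    have h2 : (degreeList F)[j - 1] ≤ (degreeList F)[t] := by
      rcases Nat.lt_or_ge t (j - 1) with h3 | h3
      · exact List.pairwise_iff_getElem.1 hsorted t (j - 1) _ hlen h3
      · have : t = j - 1 := by omega
        subst this
        exact le_rfl
    have h3 : (((degreeList F)[j - 1] : ℕ) : ℚ) ≤ (((degreeList F)[t] : ℕ) : ℚ) := by
      exact_mod_cast h2
    linarith
  have h2 : ((degreeList F).take j).countP (fun x : ℕ => decide (B < (x : ℚ))) = j := by
    rw [List.countP_eq_length.2 (fun x hx => by simpa using h1 x hx), List.length_take]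
    omega
  have h3 : ((degreeList F).take j).countP (fun x : ℕ => decide (B < (x : ℚ))) ≤
      (degreeList F).countP (fun x : ℕ => decide (B < (x : ℚ))) :=
    (List.take_sublist _ _).countP_le
  have h4 : (degreeList F).countP (fun x : ℕ => decide (B < (x : ℚ))) = (high F B).card := by
    have e1 : (degreeList F).countP (fun x : ℕ => decide (B < (x : ℚ))) =
        Multiset.countP (fun x : ℕ => B < (x : ℚ)) ((degreeList F : List ℕ) : Multiset ℕ) := by
      rw [Multiset.coe_countP]
    have e2 : ((degreeList F : List ℕ) : Multiset ℕ) =
        (univ.filter (fun P : Submodule K V => finrank K P = 1)).val.map (deg F) := by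
      unfold degreeList
      exact Multiset.sort_eq _ _
    rw [e1, e2, Multiset.countP_map]
    have e3 : high F B = (univ.filter (fun P : Submodule K V => finrank K P = 1)).filter
        (fun P => B < deg F P) := by
      unfold high
      rw [Finset.filter_filter]
    rw [e3]
    rfl
  omega

/-- **Main theorem.** The first part is the explicit form; the second is Q1 in its original form. -/
theorem result :
    (∀ (K : Type) [Field K] [Fintype K] (n k i : ℕ), 3 ≤ i → i ≤ k → 3 * k ≤ n →
      ∀ F : Finset (Submodule K (Fin n → K)), IsIntersecting k F →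
        (d F ((Nat.card K ^ (i + 1) - 1) / (Nat.card K - 1)) : ℚ) ≤
          gb (Nat.card K) (n - 2) (k - 2) +
            (Nat.card K : ℚ) ^ (k - 1) * gb (Nat.card K) (n - i - 1) (k - i)) ∧
    (∀ (K : Type) [Field K] [Fintype K] (ε : ℝ), 0 < ε → ∃ C : ℝ, ∃ k₀ : ℕ, ∀ k : ℕ, k₀ ≤ k →
      ∀ i : ℕ, ε * k ≤ i → i ≤ k → ∀ n : ℕ, C * k < n →
      ∀ F : Finset (Submodule K (Fin n → K)), IsIntersecting k F →
        (d F ((Nat.card K ^ (i + 1) - 1) / (Nat.card K - 1)) : ℚ) ≤
          gb (Nat.card K) (n - 2) (k - 2) +
            (Nat.card K : ℚ) ^ (k - 1) * gb (Nat.card K) (n - i - 1) (k - i)) := by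
  have key : ∀ (K : Type) [Field K] [Fintype K] (n k i : ℕ), 3 ≤ i → i ≤ k → 3 * k ≤ n →
      ∀ F : Finset (Submodule K (Fin n → K)), IsIntersecting k F →
        (d F ((Nat.card K ^ (i + 1) - 1) / (Nat.card K - 1)) : ℚ) ≤
          gb (Nat.card K) (n - 2) (k - 2) +
            (Nat.card K : ℚ) ^ (k - 1) * gb (Nat.card K) (n - i - 1) (k - i) := by
    intro K _ _ n k i hi3 hik hn F hF
    have hq := two_le_card K
    have hdim : finrank K (Fin n → K) = n := by simp
    have hbr : (Nat.card K ^ (i + 1) - 1) / (Nat.card K - 1) = br (Nat.card K) (i + 1) := by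
      unfold br
      rw [Nat.geomSum_eq hq]
    have h1 := main F k i hF.1 (by
      intro W hW W' hW' h
      have := hF.2 W hW W' hW'
      rw [h, finrank_bot] at this
      omega) (by rw [hdim]; exact hn) hi3 hik
    rw [hdim] at h1
    rw [hbr]
    by_contra hcon
    push Not at hcon
    have hB : 0 ≤ bound (Nat.card K) n k i :=
      (gb_nonneg hq _ _).trans (bound_ge hq n k i)
    have hj : 1 ≤ br (Nat.card K) (i + 1) := by
      have h4 : br (Nat.card K) 1 = 1 := by simp [br]
      rw [← h4]
      exact br_mono (by omega)
    have h2 := card_high_ge F (bound (Nat.card K) n k i) hB _ hj hcon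
    omega
  refine ⟨key, ?_⟩
  intro K _ _ ε hε
  refine ⟨3, ⌈3 / ε⌉₊, ?_⟩
  intro k hk i hi1 hi2 n hn F hF
  refine key K n k i ?_ hi2 ?_ F hF
  · have h1 : 3 / ε ≤ k := (Nat.le_ceil _).trans (by exact_mod_cast hk)
    rw [div_le_iff₀ hε] at h1
    have h2 : (3 : ℝ) ≤ i := by linarith
    exact_mod_cast h2
  · have : (3 * k : ℝ) < n := hn
    have h2 : 3 * k < n := by exact_mod_cast this
    omega

end Pool.Agent.Results.MP_6601f2_co.LargeIndexDegrees
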